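import Pool.Agent.H.MP_4362c3_ag.A

namespace Pool.Agent.Results.MP_4362c3_ag.Fermat

open MvPolynomial Finset Pool.Agent.H.MP_4362c3_ag

theorem result (k : Type) [Field k] [CharZero k] (m n : ℕ) (hm : m ≠ 0) :
    RatInt (algebraMap (MvPolynomial (Fin m) k) (FractionRing (MvPolynomial (Fin m) k))
      (∑ i, X i ^ n))⁻¹ ↔ n ≠ m := by
  classical
  set Q : MvPolynomial (Fin m) k := ∑ i, X i ^ n with hQ
  have q0 : Q ≠ 0 := fun z => by
    have := congrArg (eval 1) z
    simp [hQ, hm] at this
  let ι := algebraMap (MvPolynomial (Fin m) k) (FractionRing (MvPolynomial (Fin m) k))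
  have inj : Function.Injective ι := IsFractionRing.injective _ _
  have ne : ∀ f, f ≠ 0 → ι f ≠ 0 := fun f hf => (map_ne_zero_iff ι inj).2 hf
  constructor
  · rintro ⟨a, b, hb, h⟩ rfl
    have B0 : ∏ i, b i ≠ 0 := prod_ne_zero_iff.2 fun i _ => hb i
    refine B0 (char0 n hm (fun i => a i * ∏ j ∈ univ.erase i, b j) _ (inj ?_))
    have : ∀ i, ι ((∏ i, b i) * pderiv i (a i * ∏ j ∈ univ.erase i, b j) -
        (a i * ∏ j ∈ univ.erase i, b j) * pderiv i (∏ i, b i)) = ι (∏ i, b i) ^ 2 *
        (ι (b i * pderiv i (a i) - a i * pderiv i (b i)) / ι (b i) ^ 2) := fun i => by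
      have := ne _ (hb i)
      rw [← mul_prod_erase univ b (mem_univ i)]
      generalize ∏ j ∈ univ.erase i, b j = c
      simp only [Derivation.leibniz, smul_eq_mul, map_sub, map_mul, map_add]
      field_simp
      ring
    change _ = ι (Q * _)
    clear_value Q
    rw [map_mul, map_sum, sum_congr rfl fun i _ => this i, ← mul_sum, ← h, map_pow]
    have := ne _ q0
    change _ = ι Q * (_ * (ι Q)⁻¹)
    field_simp
  · intro h
    have c : C ((m : k) - n) ≠ (0 : MvPolynomial (Fin m) k) :=
      C_ne_zero.2 (sub_ne_zero.2 (by exact_mod_cast h.symm))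
    refine ⟨X, fun _ => C ((m : k) - n) * Q, fun _ => mul_ne_zero c q0, ?_⟩
    have e : ∑ i, (C ((m : k) - n) * Q * pderiv i (X i) - X i * pderiv i (C ((m : k) - n) * Q)) =
        C ((m : k) - n) ^ 2 * Q := by
      have hom : Q.IsHomogeneous n := IsHomogeneous.sum _ _ _ fun i _ => by
        simpa using (isHomogeneous_X k i).pow n
      simp only [pderiv_X_self, mul_one, pderiv_C_mul, sum_sub_distrib, mul_left_comm (X _),
        ← mul_sum, hom.sum_X_mul_pderiv, sum_const, card_univ, Fintype.card_fin, nsmul_eq_mul]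
      simp only [map_sub, map_natCast]
      ring
    rw [← sum_div, ← map_sum, e]
    have := ne _ q0
    have := ne _ c
    change (ι Q)⁻¹ = ι _ / ι _ ^ 2
    rw [map_mul, map_mul, map_pow]
    field_simp

end Pool.Agent.Results.MP_4362c3_ag.Fermat
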